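import Mathlib
import Pool.Agent.Y817.ISO.Stm

/-!
# The affine graph of a system of equations (job ISO-GRAPH)
-/

set_option autoImplicit false

namespace Pool.Agent.Y606.ISO

open Pool.Agent.Y817.ISO Pool.Agent.Helper844.Sys

/-- A rule given by affine maps on an arbitrary finite power. -/
structure Rule (P J : Type) where
  W : Type
  inst : Fintype W
  src : P
  tgt : P
  A : (W → ℤ) → (J → ℤ)
  B : (W → ℤ) → (J → ℤ)
  hA : ∀ w w', A (w + w') + A 0 = A w + A w'
  hB : ∀ w w', B (w + w') + B 0 = B w + B w'
  iA : Function.Injective A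
  iB : Function.Injective B

theorem mk_rules {P ι J : Type} (r : ι → Rule P J) :
    ∃ D : Rules P ι J, ∀ p q, Step D p q ↔
      ∃ i, ∃ w : (r i).W → ℤ, p = ((r i).src, (r i).A w) ∧ q = ((r i).tgt, (r i).B w) := by
  classical
  letI : ∀ i, Fintype (r i).W := fun i => (r i).inst
  let ε : ∀ i, (Fin (Fintype.card (r i).W) → ℤ) ≃+ ((r i).W → ℤ) := fun i =>
    AddEquiv.arrowCongr (Fintype.equivFin (r i).W).symm (AddEquiv.refl ℤ)
  let α : ∀ i, ((r i).W → ℤ) →+ (J → ℤ) := fun i =>
    AddMonoidHom.mk' (fun w => (r i).A w - (r i).A 0) (fun w w' => by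
      have := (r i).hA w w'
      rw [← sub_eq_zero] at this ⊢
      rw [← this]; abel)
  let β : ∀ i, ((r i).W → ℤ) →+ (J → ℤ) := fun i =>
    AddMonoidHom.mk' (fun w => (r i).B w - (r i).B 0) (fun w w' => by
      have := (r i).hB w w'
      rw [← sub_eq_zero] at this ⊢
      rw [← this]; abel)
  have hα : ∀ i, Function.Injective (α i) := fun i w w' h => (r i).iA (sub_left_injective h)
  have hβ : ∀ i, Function.Injective (β i) := fun i w w' h => (r i).iB (sub_left_injective h)
  let D : Rules P ι J :=
    { dim := fun i => Fintype.card (r i).W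
      src := fun i => (r i).src
      tgt := fun i => (r i).tgt
      μ := fun i => (α i).comp (ε i).toAddMonoidHom
      ν := fun i => (β i).comp (ε i).toAddMonoidHom
      a := fun i => (r i).A 0
      b := fun i => (r i).B 0
      μ_inj := fun i => (hα i).comp (ε i).injective
      ν_inj := fun i => (hβ i).comp (ε i).injective }
  have e1 : ∀ i (w : Fin (Fintype.card (r i).W) → ℤ), D.μ i w + D.a i = (r i).A (ε i w) := by
    intro i w
    show (r i).A (ε i w) - (r i).A 0 + (r i).A 0 = _
    abel
  have e2 : ∀ i (w : Fin (Fintype.card (r i).W) → ℤ), D.ν i w + D.b i = (r i).B (ε i w) := by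
    intro i w
    show (r i).B (ε i w) - (r i).B 0 + (r i).B 0 = _
    abel
  refine ⟨D, fun p q => ⟨?_, ?_⟩⟩
  · rintro ⟨i, w⟩
    exact ⟨i, ε i w, by rw [← e1], by rw [← e2]⟩
  · rintro ⟨i, w, rfl, rfl⟩
    have := Step.mk (D := D) i ((ε i).symm w)
    rw [e1, e2, AddEquiv.apply_symm_apply] at this
    exact this

/-- A vector of the registers. -/
def vec {X : Type} (v : X → ℤ) (i s : ℤ) : X ⊕ Bool → ℤ := Sum.elim v (fun b => cond b s i)

@[simp] theorem vec_inl {X : Type} (v : X → ℤ) (i s : ℤ) (x : X) : vec v i s (Sum.inl x) = v x :=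
  rfl

@[simp] theorem vec_false {X : Type} (v : X → ℤ) (i s : ℤ) :
    vec v i s (Sum.inr false) = i := rfl

@[simp] theorem vec_true {X : Type} (v : X → ℤ) (i s : ℤ) :
    vec v i s (Sum.inr true) = s := rfl

theorem vec_ext {X : Type} {V : X ⊕ Bool → ℤ} {v : X → ℤ} {i s : ℤ}
    (h1 : ∀ x, V (Sum.inl x) = v x) (h2 : V (Sum.inr false) = i) (h3 : V (Sum.inr true) = s) :
    V = vec v i s := by
  funext j
  rcases j with x | b
  · exact h1 x
  · cases b
    · exact h2
    · exact h3

theorem vec_self {X : Type} (V : X ⊕ Bool → ℤ) :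
    V = vec (fun x => V (Sum.inl x)) (V (Sum.inr false)) (V (Sum.inr true)) :=
  vec_ext (fun _ => rfl) rfl rfl

/-- The affine part of an equation. -/
def lin {X : Type} (q : Eqn X) (v : X → ℤ) : ℤ := q.a * v q.k + q.b * v q.l + q.c * v q.m + q.d

/-- The trivial equation. -/
def q0 {X : Type} (n : X) : Eqn X := ⟨n, n, n, n, n, 0, 0, 0, 0, 0⟩

theorem q0_holds {X : Type} (n : X) (v : X → ℤ) : (q0 n).Holds v := by
  simp [q0, Eqn.Holds]

theorem holds_iff {X : Type} (q : Eqn X) (v : X → ℤ) :
    q.Holds v ↔ q.e * (v q.i * v q.j) + lin q v = 0 := by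
  unfold Eqn.Holds lin
  constructor <;> intro h <;> linarith

theorem all_iff {X : Type} (n : X) (L : List (Eqn X)) (v : X → ℤ) :
    (∀ q ∈ L, q.Holds v) ↔ ∀ l, (L.getD l (q0 n)).Holds v := by
  constructor
  · intro h l
    by_cases hl : l < L.length
    · rw [List.getD_eq_getElem _ _ hl]
      exact h _ (List.getElem_mem hl)
    · rw [List.getD_eq_default _ _ (not_lt.1 hl)]
      exact q0_holds n v
  · intro h q hq
    obtain ⟨l, hl, rfl⟩ := List.getElem_of_mem hq
    have := h l
    rwa [List.getD_eq_getElem _ _ hl] at this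

/-- The good differences at a state. -/
def diffs {P J : Type} (r : P × (J → ℤ) → P × (J → ℤ) → Prop) (p : P) : AddSubgroup (J → ℤ) where
  carrier := {d | ∀ V, Relation.EqvGen r (p, V) (p, V + d)}
  zero_mem' := fun V => by rw [add_zero]; exact .refl _
  add_mem' := fun {a b} ha hb V => by
    rw [← add_assoc]
    exact .trans _ _ _ (ha V) (hb _)
  neg_mem' := fun {a} ha V => by
    have := ha (V + -a)
    rw [neg_add_cancel_right] at this
    exact .symm _ _ this

theorem move {P J : Type} [Fintype J] [DecidableEq J] (r : P × (J → ℤ) → P × (J → ℤ) → Prop)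
    (p : P) (S : J → Prop)
    (h : ∀ j, S j → ∀ V : J → ℤ, Relation.EqvGen r (p, V) (p, V + Pi.single j 1))
    (V V' : J → ℤ) (hV : ∀ j, ¬ S j → V j = V' j) : Relation.EqvGen r (p, V) (p, V') := by
  have hd : V' - V ∈ diffs r p := by
    have : V' - V = ∑ j, (V' j - V j) • (Pi.single j (1 : ℤ) : J → ℤ) := by
      funext i
      rw [Finset.sum_apply, Finset.sum_eq_single i]
      · simp
      · intro j _ hj
        simp [Pi.single_apply, hj.symm]
      · intro hi
        exact absurd (Finset.mem_univ i) hi
    rw [this]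
    refine AddSubgroup.sum_mem _ fun j _ => ?_
    by_cases hj : S j
    · exact AddSubgroup.zsmul_mem (diffs r p) (show _ ∈ diffs r p from h j hj) _
    · rw [hV j hj, sub_self, zero_zsmul]
      exact AddSubgroup.zero_mem _
  have := hd V
  rwa [add_sub_cancel] at this

theorem lin_aff {X : Type} (q : Eqn X) (v w : X → ℤ) :
    lin q (v + w) + lin q 0 = lin q v + lin q w := by
  simp only [lin, Pi.add_apply, Pi.zero_apply]
  ring

theorem vec_add {X : Type} (v v' : X → ℤ) (i i' s s' : ℤ) :
    vec v i s + vec v' i' s' = vec (v + v') (i + i') (s + s') := by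
  funext j
  rcases j with x | b
  · rfl
  · cases b <;> rfl

theorem vec_inj {X : Type} (F G : (X → ℤ) → ℤ) :
    Function.Injective (fun v : X → ℤ => vec v (F v) (G v)) := fun v w h => by
  funext x
  exact congrFun h (Sum.inl x)

section

variable {X : Type} [Fintype X] [DecidableEq X]

/-- Shifts. -/
def rShift {N : ℕ} (p : Option (Fin (N + 1))) (x : X) :
    Rule (Option (Fin (N + 1))) (X ⊕ Bool) where
  W := X ⊕ Bool
  inst := inferInstance
  src := p
  tgt := p
  A := fun w => w
  B := fun w => w + Pi.single (Sum.inl x) 1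
  hA := fun w w' => by rw [add_zero]
  hB := fun w w' => by abel
  iA := fun _ _ h => h
  iB := fun _ _ h => add_left_injective _ h

/-- Start. -/
def rStart (N : ℕ) (Q : ℕ → Eqn X) : Rule (Option (Fin (N + 1))) (X ⊕ Bool) where
  W := X
  inst := inferInstance
  src := none
  tgt := some 0
  A := fun v => vec v 0 0
  B := fun v => vec v 0 (lin (Q 0) v)
  hA := fun w w' => by rw [vec_add, vec_add, add_zero, add_zero]
  hB := fun w w' => by rw [vec_add, vec_add, add_zero, lin_aff]
  iA := vec_inj (fun _ => 0) (fun _ => 0)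
  iB := vec_inj (fun _ => 0) (fun v => lin (Q 0) v)

/-- Loops. -/
def rLoop (N : ℕ) (Q : ℕ → Eqn X) (l : Fin N) : Rule (Option (Fin (N + 1))) (X ⊕ Bool) where
  W := X ⊕ Bool
  inst := inferInstance
  src := some l.castSucc
  tgt := some l.castSucc
  A := fun w => w
  B := fun w => w + vec 0 1 ((Q l).e * w (Sum.inl (Q l).j))
  hA := fun w w' => by rw [add_zero]
  hB := fun w w' => by
    funext j
    rcases j with x | b
    · simp
    · cases b
      · simp; ring
      · simp; ring
  iA := fun _ _ h => h
  iB := fun w w' h => by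
    have h1 : ∀ x, w (Sum.inl x) = w' (Sum.inl x) := fun x => by
      simpa using congrFun h (Sum.inl x)
    funext j
    rcases j with x | b
    · exact h1 x
    · cases b
      · simpa using congrFun h (Sum.inr false)
      · have := congrFun h (Sum.inr true)
        simpa [h1] using this

/-- Exits. -/
def rExit (N : ℕ) (Q : ℕ → Eqn X) (l : Fin N) : Rule (Option (Fin (N + 1))) (X ⊕ Bool) where
  W := X
  inst := inferInstance
  src := some l.castSucc
  tgt := some l.succ
  A := fun v => vec v (v (Q l).i) 0
  B := fun v => vec v 0 (lin (Q (l + 1)) v)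
  hA := fun w w' => by
    rw [vec_add, vec_add, add_zero, add_zero]
    simp
  hB := fun w w' => by rw [vec_add, vec_add, add_zero, lin_aff]
  iA := vec_inj (fun v => v (Q l).i) (fun _ => 0)
  iB := vec_inj (fun _ => 0) (fun v => lin (Q (l + 1)) v)

/-- The link. -/
def rLink (n m : X) (N : ℕ) : Rule (Option (Fin (N + 1))) (X ⊕ Bool) where
  W := Unit
  inst := inferInstance
  src := some (Fin.last N)
  tgt := none
  A := fun k => vec (Pi.single m (k ())) 0 0
  B := fun k => vec (Pi.single n (k ())) 0 0
  hA := fun w w' => by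
    rw [vec_add, vec_add, add_zero, Pi.add_apply, Pi.zero_apply, Pi.single_add, Pi.single_zero,
      add_zero]
  hB := fun w w' => by
    rw [vec_add, vec_add, add_zero, Pi.add_apply, Pi.zero_apply, Pi.single_add, Pi.single_zero,
      add_zero]
  iA := fun w w' h => by
    funext x
    have := congrFun h (Sum.inl m)
    simp only [vec_inl, Pi.single_eq_same] at this
    exact this
  iB := fun w w' h => by
    funext x
    have := congrFun h (Sum.inl n)
    simp only [vec_inl, Pi.single_eq_same] at this
    exact this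

/-- The index of the rules. -/
abbrev Ix (X : Type) (n m : X) (N : ℕ) : Type :=
  {x : X // x ≠ n} ⊕ {x : X // x ≠ m} ⊕ Unit ⊕ Fin N ⊕ Fin N ⊕ Unit

/-- The rules. -/
def rules (n m : X) (N : ℕ) (Q : ℕ → Eqn X) :
    Ix X n m N → Rule (Option (Fin (N + 1))) (X ⊕ Bool)
  | .inl x => rShift none x.1
  | .inr (.inl x) => rShift (some (Fin.last N)) x.1
  | .inr (.inr (.inl _)) => rStart N Q
  | .inr (.inr (.inr (.inl l))) => rLoop N Q l
  | .inr (.inr (.inr (.inr (.inl l)))) => rExit N Q l
  | .inr (.inr (.inr (.inr (.inr _)))) => rLink n m N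

/-- The invariant. -/
def Inv (n m : X) (N : ℕ) (Q : ℕ → Eqn X) (E : ℤ → Prop) :
    Option (Fin (N + 1)) × (X ⊕ Bool → ℤ) → Prop
  | (none, V) => E (V (Sum.inl n))
  | (some l, V) => if l.1 = N then E (V (Sum.inl m)) else
      (V (Sum.inr true) - (Q l).e * (V (Sum.inr false) * V (Sum.inl (Q l).j)) =
        lin (Q l) (fun x => V (Sum.inl x)) ∧ (∀ l' < l.1, (Q l').Holds (fun x => V (Sum.inl x))) ∧
        E (V (Sum.inl n))) ∨
      (V (Sum.inr true) + (Q l).e * ((V (Sum.inl (Q l).i) - V (Sum.inr false)) *
        V (Sum.inl (Q l).j)) = 0 ∧ (∀ l' > l.1, (Q l').Holds (fun x => V (Sum.inl x))) ∧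
        E (V (Sum.inl m)))

/-- The rules preserve the invariant. -/
theorem inv_rule (n m : X) (N : ℕ) (Q : ℕ → Eqn X) (E : ℤ → Prop)
    (hQ : ∀ l, N ≤ l → ∀ v, (Q l).Holds v)
    (hE : ∀ v : X → ℤ, (∀ l, (Q l).Holds v) → (E (v n) ↔ E (v m))) (i : Ix X n m N) :
    ∀ (w : (rules n m N Q i).W → ℤ),
      Inv n m N Q E ((rules n m N Q i).src, (rules n m N Q i).A w) ↔
        Inv n m N Q E ((rules n m N Q i).tgt, (rules n m N Q i).B w) := by
  rcases i with x | x | _ | l | l | _
  · show ∀ w : X ⊕ Bool → ℤ, Inv n m N Q E (none, w) ↔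
      Inv n m N Q E (none, w + Pi.single (Sum.inl x.1) 1)
    intro w
    simp only [Inv]
    have : (w + Pi.single (Sum.inl x.1) 1 : X ⊕ Bool → ℤ) (Sum.inl n) = w (Sum.inl n) := by
      simp [Pi.single_apply, x.2.symm]
    rw [this]
  · show ∀ w : X ⊕ Bool → ℤ, Inv n m N Q E (some (Fin.last N), w) ↔
      Inv n m N Q E (some (Fin.last N), w + Pi.single (Sum.inl x.1) 1)
    intro w
    simp only [Inv, Fin.val_last, if_true]
    have : (w + Pi.single (Sum.inl x.1) 1 : X ⊕ Bool → ℤ) (Sum.inl m) = w (Sum.inl m) := by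
      simp [Pi.single_apply, x.2.symm]
    rw [this]
  · show ∀ v : X → ℤ, Inv n m N Q E (none, vec v 0 0) ↔
      Inv n m N Q E (some 0, vec v 0 (lin (Q 0) v))
    intro v
    simp only [Inv, Fin.val_zero, vec_inl, vec_true, vec_false]
    split_ifs with h0
    · refine hE v fun l => hQ l (by omega) v
    · constructor
      · intro h
        left
        exact ⟨by ring, fun l' hl' => by omega, h⟩
      · rintro (⟨_, _, h⟩ | ⟨h1, h2, h3⟩)
        · exact h
        · refine (hE v fun l => ?_).2 h3
          rcases Nat.eq_zero_or_pos l with rfl | hl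
          · rw [holds_iff]
            rw [sub_zero] at h1
            linarith
          · exact h2 l hl
  · show ∀ w : X ⊕ Bool → ℤ, Inv n m N Q E (some l.castSucc, w) ↔
      Inv n m N Q E (some l.castSucc, w + vec 0 1 ((Q l).e * w (Sum.inl (Q l).j)))
    intro w
    have hl : ((l.castSucc : Fin (N + 1)) : ℕ) ≠ N := by
      rw [Fin.val_castSucc]; exact l.2.ne
    generalize hw' : w + vec 0 1 ((Q l).e * w (Sum.inl (Q l).j)) = w'
    have e1 : ∀ x, w' (Sum.inl x) = w (Sum.inl x) := by
      intro x
      rw [← hw']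
      simp
    have e2 : w' (Sum.inr false) = w (Sum.inr false) + 1 := by
      rw [← hw']
      simp
    have e3 : w' (Sum.inr true) = w (Sum.inr true) + (Q l).e * w (Sum.inl (Q l).j) := by
      rw [← hw']
      simp
    rw [Fin.val_castSucc] at hl
    simp only [Inv, hl, if_false, e1, e2, e3, Fin.val_castSucc]
    have e4 : w (Sum.inr true) + (Q l).e * w (Sum.inl (Q l).j) -
        (Q l).e * ((w (Sum.inr false) + 1) * w (Sum.inl (Q l).j)) =
        w (Sum.inr true) - (Q l).e * (w (Sum.inr false) * w (Sum.inl (Q l).j)) := by ring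
    have e5 : w (Sum.inr true) + (Q l).e * w (Sum.inl (Q l).j) +
        (Q l).e * ((w (Sum.inl (Q l).i) - (w (Sum.inr false) + 1)) * w (Sum.inl (Q l).j)) =
        w (Sum.inr true) + (Q l).e * ((w (Sum.inl (Q l).i) - w (Sum.inr false)) *
          w (Sum.inl (Q l).j)) := by ring
    rw [e4, e5]
  · show ∀ v : X → ℤ, Inv n m N Q E (some l.castSucc, vec v (v (Q l).i) 0) ↔
      Inv n m N Q E (some l.succ, vec v 0 (lin (Q (l + 1)) v))
    intro v
    have hl : ((l.castSucc : Fin (N + 1)) : ℕ) ≠ N := by
      rw [Fin.val_castSucc]; exact l.2.ne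
    simp only [Inv, hl, if_false]
    simp only [vec_inl, vec_true, vec_false, Fin.val_castSucc, Fin.val_succ]
    have a1 : (0 - (Q l).e * (v (Q l).i * v (Q l).j) = lin (Q l) v) ↔ (Q l).Holds v := by
      rw [holds_iff]
      constructor <;> intro h <;> linarith
    have a2 : (lin (Q (l + 1)) v + (Q (l + 1)).e * ((v (Q (l + 1)).i - 0) * v (Q (l + 1)).j)
        = 0) ↔ (Q (l + 1)).Holds v := by
      rw [holds_iff, sub_zero]
      constructor <;> intro h <;> linarith
    have a3 : lin (Q (l + 1)) v - (Q (l + 1)).e * (0 * v (Q (l + 1)).j) =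
        lin (Q (l + 1)) v := by ring
    have a4 : (0 : ℤ) + (Q l).e * ((v (Q l).i - v (Q l).i) * v (Q l).j) = 0 := by ring
    simp only [a1, a2, a3, a4, true_and]
    split_ifs with h1
    · constructor
      · rintro (⟨b1, b2, b3⟩ | ⟨b1, b2⟩)
        · refine (hE v fun l' => ?_).1 b3
          rcases lt_trichotomy l' l with h | h | h
          · exact b2 l' h
          · rw [h]; exact b1
          · exact hQ l' (by omega) v
        · exact b2
      · intro h
        right
        exact ⟨fun l' hl' => hQ l' (by omega) v, h⟩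
    · constructor
      · rintro (⟨b1, b2, b3⟩ | ⟨b1, b2⟩)
        · left
          refine ⟨fun l' hl' => ?_, b3⟩
          rcases Nat.lt_succ_iff_lt_or_eq.1 hl' with h | h
          · exact b2 l' h
          · rw [h]; exact b1
        · right
          exact ⟨b1 _ (Nat.lt_succ_self _), fun l' hl' => b1 l' (by omega), b2⟩
      · rintro (⟨b1, b2⟩ | ⟨b1, b2, b3⟩)
        · left
          exact ⟨b1 _ (Nat.lt_succ_self _), fun l' hl' => b1 l' (by omega), b2⟩
        · right
          refine ⟨fun l' hl' => ?_, b3⟩
          rcases Nat.eq_or_lt_of_le (Nat.succ_le_of_lt hl') with h | h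
          · rw [← h]; exact b1
          · exact b2 l' h
  · show ∀ k : Unit → ℤ, Inv n m N Q E (some (Fin.last N), vec (Pi.single m (k ())) 0 0) ↔
      Inv n m N Q E (none, vec (Pi.single n (k ())) 0 0)
    intro k
    simp only [Inv, Fin.val_last, if_true, vec_inl, Pi.single_eq_same]

end

/-- GRAPH. -/
theorem t : StmGraph := by
  classical
  intro R hR X _ n m L hnm hL
  set N := L.length with hN
  set Q : ℕ → Eqn X := fun l => L.getD l (q0 n) with hQdef
  have hQ : ∀ l, N ≤ l → ∀ v, (Q l).Holds v := by
    intro l hl v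
    simp only [hQdef]
    rw [List.getD_eq_default _ _ hl]
    exact q0_holds n v
  have hall : ∀ v, (∀ q ∈ L, q.Holds v) ↔ ∀ l, (Q l).Holds v := fun v => all_iff n L v
  obtain ⟨D, hD⟩ := mk_rules (rules n m N Q)
  have step : ∀ (i : Ix X n m N) (w : (rules n m N Q i).W → ℤ), Relation.EqvGen (Step D)
      ((rules n m N Q i).src, (rules n m N Q i).A w)
      ((rules n m N Q i).tgt, (rules n m N Q i).B w) :=
    fun i w => .rel _ _ ((hD _ _).2 ⟨i, w, rfl, rfl⟩)
  refine ⟨Option (Fin (N + 1)), Ix X n m N, X ⊕ Bool, inferInstance, inferInstance, inferInstance,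
    inferInstance, D, none, Sum.inl n, fun k k' => ⟨?_, ?_⟩⟩
  · intro h
    set E : ℤ → Prop := fun c => k = c ∨ ∃ a b : ℕ, k = a ∧ c = b ∧ R a b with hEdef
    have hE : ∀ v : X → ℤ, (∀ l, (Q l).Holds v) → (E (v n) ↔ E (v m)) := by
      intro v hv
      obtain ⟨a', b', h1, h2, h3⟩ := (hL (v n) (v m)).1 ⟨v, rfl, rfl, (hall v).2 hv⟩
      simp only [hEdef]
      constructor
      · rintro (h4 | ⟨a, b, h4, h5, h6⟩)
        · exact Or.inr ⟨a', b', h4.trans h1, h2, h3⟩
        · have : b = a' := by
            rw [h1] at h5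
            exact_mod_cast h5.symm
          exact Or.inr ⟨a, b', h4, h2, hR.trans h6 (this ▸ h3)⟩
      · rintro (h4 | ⟨a, b, h4, h5, h6⟩)
        · exact Or.inr ⟨b', a', h4.trans h2, h1, hR.symm h3⟩
        · have : b = b' := by
            rw [h2] at h5
            exact_mod_cast h5.symm
          exact Or.inr ⟨a, a', h4, h1, hR.trans h6 (this ▸ hR.symm h3)⟩
    have key : ∀ p q, Relation.EqvGen (Step D) p q → (Inv n m N Q E p ↔ Inv n m N Q E q) := by
      intro p q hpq
      induction hpq with
      | rel p q h =>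
        obtain ⟨i, w, rfl, rfl⟩ := (hD _ _).1 h
        exact inv_rule n m N Q E hQ hE i w
      | refl p => exact Iff.rfl
      | symm p q _ ih => exact ih.symm
      | trans p q r _ _ ih1 ih2 => exact ih1.trans ih2
    have h1 := (key _ _ h).1 (by
      simp only [Inv, Pi.single_eq_same]
      exact Or.inl rfl)
    simp only [Inv, Pi.single_eq_same] at h1
    exact h1
  · rintro (rfl | ⟨a, b, rfl, rfl, hab⟩)
    · exact .refl _
    · obtain ⟨v, hvn, hvm, hv⟩ := (hL a b).2 ⟨a, b, rfl, rfl, hab⟩
      rw [hall] at hv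
      -- the shifts
      have sB : ∀ V V' : X ⊕ Bool → ℤ, V (Sum.inl n) = V' (Sum.inl n) →
          (∀ c, V (Sum.inr c) = V' (Sum.inr c)) →
          Relation.EqvGen (Step D) (none, V) (none, V') := by
        intro V V' h1 h2
        refine move (Step D) none (fun j => ∃ x : X, x ≠ n ∧ j = Sum.inl x) ?_ V V' ?_
        · rintro j ⟨x, hx, rfl⟩ V
          exact step (.inl ⟨x, hx⟩) V
        · rintro (x | c) hj
          · by_cases hx : x = n
            · rw [hx]; exact h1
            · exact absurd ⟨x, hx, rfl⟩ hj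
          · exact h2 c
      have sF : ∀ V V' : X ⊕ Bool → ℤ, V (Sum.inl m) = V' (Sum.inl m) →
          (∀ c, V (Sum.inr c) = V' (Sum.inr c)) →
          Relation.EqvGen (Step D) (some (Fin.last N), V) (some (Fin.last N), V') := by
        intro V V' h1 h2
        refine move (Step D) (some (Fin.last N)) (fun j => ∃ x : X, x ≠ m ∧ j = Sum.inl x) ?_ V V' ?_
        · rintro j ⟨x, hx, rfl⟩ V
          exact step (.inr (.inl ⟨x, hx⟩)) V
        · rintro (x | c) hj
          · by_cases hx : x = m
            · rw [hx]; exact h1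
            · exact absurd ⟨x, hx, rfl⟩ hj
          · exact h2 c
      -- the loops
      have loop : ∀ (l : Fin N) (k i s : ℤ), Relation.EqvGen (Step D)
          (some l.castSucc, vec v i s)
          (some l.castSucc, vec v (i + k) (s + k * ((Q l).e * v (Q l).j))) := by
        intro l k
        have one : ∀ i s : ℤ, Relation.EqvGen (Step D) (some l.castSucc, vec v i s)
            (some l.castSucc, vec v (i + 1) (s + (Q l).e * v (Q l).j)) := by
          intro i s
          have h : Relation.EqvGen (Step D) (some l.castSucc, vec v i s)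
              (some l.castSucc, vec v i s + vec 0 1 ((Q l).e * v (Q l).j)) :=
            step (.inr (.inr (.inr (.inl l)))) (vec v i s)
          rw [vec_add, add_zero] at h
          exact h
        induction k using Int.induction_on with
        | zero =>
          intro i s
          rw [add_zero, zero_mul, add_zero]
          exact .refl _
        | succ k ih =>
          intro i s
          refine .trans _ _ _ (ih i s) ?_
          have := one (i + k) (s + k * ((Q l).e * v (Q l).j))
          have e1 : i + (k : ℤ) + 1 = i + (k + 1) := by ring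
          have e2 : s + (k : ℤ) * ((Q l).e * v (Q l).j) + (Q l).e * v (Q l).j =
            s + ((k : ℤ) + 1) * ((Q l).e * v (Q l).j) := by ring
          rw [e1, e2] at this
          exact this
        | pred k ih =>
          intro i s
          refine .trans _ _ _ (ih i s) ?_
          have := one (i + (-k - 1)) (s + (-(k : ℤ) - 1) * ((Q l).e * v (Q l).j))
          have e1 : i + (-(k : ℤ) - 1) + 1 = i + -k := by ring
          have e2 : s + (-(k : ℤ) - 1) * ((Q l).e * v (Q l).j) + (Q l).e * v (Q l).j =
            s + (-(k : ℤ)) * ((Q l).e * v (Q l).j) := by ring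
          rw [e1, e2] at this
          exact .symm _ _ this
      -- the path
      have path : ∀ l : ℕ, ∀ hl : l < N + 1, Relation.EqvGen (Step D) (none, vec v 0 0)
          (some ⟨l, hl⟩, vec v 0 (lin (Q l) v)) := by
        intro l
        induction l with
        | zero =>
          intro _
          exact step (.inr (.inr (.inl ()))) v
        | succ l ih =>
          intro hl
          refine .trans _ _ _ (ih (by omega)) ?_
          have h1 := loop ⟨l, by omega⟩ (v (Q l).i) 0 (lin (Q l) v)
          have e : lin (Q l) v + v (Q l).i * ((Q l).e * v (Q l).j) = 0 := by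
            have := (holds_iff _ _).1 (hv l)
            linarith
          simp only [zero_add, e] at h1
          exact .trans _ _ _ h1 (step (.inr (.inr (.inr (.inr (.inl ⟨l, by omega⟩))))) v)
      have e1 : (Pi.single (Sum.inl n) (a : ℤ) : X ⊕ Bool → ℤ) (Sum.inl n) =
          vec v 0 0 (Sum.inl n) := by
        rw [Pi.single_eq_same, vec_inl, hvn]
      have g1 := sB (Pi.single (Sum.inl n) (a : ℤ)) (vec v 0 0) e1 (by
        intro c
        cases c <;> simp)
      have g2 := path N (Nat.lt_succ_self N)
      have e2 : lin (Q N) v = 0 := by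
        simp only [hQdef]
        rw [List.getD_eq_default _ _ (le_of_eq hN.symm)]
        simp [lin, q0]
      rw [e2] at g2
      have g3 := sF (vec v 0 0) (vec (Pi.single m (b : ℤ)) 0 0) (by
        rw [vec_inl, vec_inl, Pi.single_eq_same, hvm]) (by
        intro c
        cases c <;> simp)
      have g4 : Relation.EqvGen (Step D) (some (Fin.last N), vec (Pi.single m (b : ℤ)) 0 0)
          (none, vec (Pi.single n (b : ℤ)) 0 0) :=
        step (.inr (.inr (.inr (.inr (.inr ()))))) (fun _ => (b : ℤ))
      have e3 : (Pi.single (Sum.inl n) (b : ℤ) : X ⊕ Bool → ℤ) =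
          vec (Pi.single n (b : ℤ)) 0 0 := by
        apply vec_ext
        · intro x
          simp [Pi.single_apply]
        · simp
        · simp
      rw [e3]
      exact .trans _ _ _ g1 (.trans _ _ _ g2 (.trans _ _ _ g3 g4))

end Pool.Agent.Y606.ISO
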